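import Pool.Agent.BEJ.Stmts
import Pool.Agent.Helper19_BED.ORD

/-!
# Row ORX of squad BEJ (MP_be01ff_an): the order
-/

set_option autoImplicit false

namespace Pool.Agent.BEJ.H95

open Set Filter Topology MeasureTheory
open scoped InnerProductSpace ENNReal
open Pool.Agent.BE01 Pool.Agent.BED Pool.Agent.BEJ
open Pool.Agent.BEO (Pl BB ev lap rho)
open Pool.Agent.BED.H19 (j0_cont int_pow)

theorem orx (jlb : JlbStmt) (jsb : JsbStmt) (jab : JabStmt) : OrxStmt := by
  intro p hp
  obtain ⟨C1, hC1, hb⟩ := jsb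
  have hcp := Pool.Agent.Helper70BE01Scl.cp_pos p
  have hp0 : (0 : ℝ) < p := by exact_mod_cast hp
  obtain ⟨m, hm⟩ : ∃ m, m = 2 * p + 2 := ⟨_, rfl⟩
  have hmeven : Even m := ⟨p + 1, by omega⟩
  set c0 : ℝ := (3 / 4) ^ m / 2 with hc0
  have hc0p : 0 < c0 := by positivity
  have hK : 0 < p * cp p * c0 := by positivity
  refine ⟨(2 * p + 1) * C1 / (p * cp p * c0) + 1, by positivity, ?_⟩
  intro R x φ hR hx hφ
  have hx0 : 0 < x := by linarith
  have hV : 0 < volume.real (Metric.ball (0 : En 2) 1) := by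
    rw [measureReal_def]
    exact ENNReal.toReal_pos (Metric.measure_ball_pos volume _ one_pos).ne' measure_ball_lt_top.ne
  obtain ⟨V, hVd⟩ : ∃ V, V = volume.real (Metric.ball (0 : En 2) 1) := ⟨_, rfl⟩
  have hint := int_pow R x φ hR hx0 hφ
  rw [← hVd] at hV hint
  constructor
  · filter_upwards [hφ] with y hy
    rw [hy]
    exact jab.1 _
  · intro N hN
    rw [hint 2, ← hm, hint m, one_pow]
    have h1 : ∫ s in (0 : ℝ)..x, s * j0 s ^ 2 ≤ C1 * x := by
      have hle : ∫ s in (0 : ℝ)..x, s * j0 s ^ 2 ≤ ∫ s in (0 : ℝ)..x, C1 := by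
        refine intervalIntegral.integral_mono_on hx0.le
          ((continuous_id.mul (j0_cont.pow 2)).intervalIntegrable _ _)
          (continuous_const.intervalIntegrable _ _) fun s hs => ?_
        rcases eq_or_lt_of_le hs.1 with h | h
        · rw [← h, zero_mul]
          exact hC1.le
        · exact hb s h
      rw [intervalIntegral.integral_const, sub_zero, smul_eq_mul] at hle
      linarith
    have h2 : c0 ≤ ∫ s in (0 : ℝ)..x, s * j0 s ^ m := by
      have hii : ∀ a b : ℝ, IntervalIntegrable (fun s => s * j0 s ^ m) volume a b := fun a b =>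
        (continuous_id.mul (j0_cont.pow m)).intervalIntegrable _ _
      have hsplit := intervalIntegral.integral_add_adjacent_intervals (hii 0 1) (hii 1 x)
      have h3 : 0 ≤ ∫ s in (1 : ℝ)..x, s * j0 s ^ m := by
        refine intervalIntegral.integral_nonneg hx fun s hs => ?_
        exact mul_nonneg (by linarith [hs.1]) (hmeven.pow_nonneg _)
      have hle : ∫ s in (0 : ℝ)..1, s * (3 / 4) ^ m ≤ ∫ s in (0 : ℝ)..1, s * j0 s ^ m := by
        refine intervalIntegral.integral_mono_on (by norm_num)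
          ((by fun_prop : Continuous fun s : ℝ => s * (3 / 4 : ℝ) ^ m).intervalIntegrable _ _)
          (hii 0 1) fun s hs => ?_
        have h4 := (jlb s hs.1 (by linarith [hs.2])).1
        refine mul_le_mul_of_nonneg_left (pow_le_pow_left₀ (by norm_num) ?_ m) hs.1
        nlinarith [hs.1, hs.2]
      have hval : ∫ s in (0 : ℝ)..1, s * (3 / 4 : ℝ) ^ m = c0 := by
        rw [intervalIntegral.integral_mul_const, integral_id]
        rw [hc0]
        ring
      rw [hval] at hle
      linarith
    have hKR : 0 < 2 * (V * (R / x) ^ 2) := by positivity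
    have hN0 : (0 : ℝ) ≤ N := Nat.cast_nonneg N
    generalize (∫ s in (0 : ℝ)..x, s * j0 s ^ 2) = I2 at *
    generalize (∫ s in (0 : ℝ)..x, s * j0 s ^ m) = Im at *
    -- divide by the common factor
    have key : (2 * (p : ℝ) + 1) * I2 < N * (p * cp p * Im) := by
      have h5 : (2 * (p : ℝ) + 1) * I2 ≤ (2 * p + 1) * (C1 * x) :=
        mul_le_mul_of_nonneg_left h1 (by positivity)
      have h6 : ((2 * p + 1) * C1 / (p * cp p * c0) + 1) * x * (p * cp p * c0) ≤
          N * (p * cp p * Im) := by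
        have h7 : ((2 * p + 1) * C1 / (p * cp p * c0) + 1) * x * (p * cp p * c0) ≤
            N * (p * cp p * c0) := mul_le_mul_of_nonneg_right hN hK.le
        have h8 : (N : ℝ) * (p * cp p * c0) ≤ N * (p * cp p * Im) :=
          mul_le_mul_of_nonneg_left (mul_le_mul_of_nonneg_left h2 (by positivity)) hN0
        exact h7.trans h8
      have h9 : ((2 * p + 1) * C1 / (p * cp p * c0) + 1) * x * (p * cp p * c0) =
          (2 * p + 1) * C1 * x + x * (p * cp p * c0) := by
        field_simp
      have h10 : 0 < x * (p * cp p * c0) := mul_pos hx0 hK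
      linarith
    have e1 : (2 * (p : ℝ) + 1) * 1 * (2 * (V * ((R / x) ^ 2 * I2))) =
        2 * (V * (R / x) ^ 2) * ((2 * (p : ℝ) + 1) * I2) := by ring
    have e2 : (N : ℝ) * (p * cp p * (2 * (V * ((R / x) ^ 2 * Im)))) =
        2 * (V * (R / x) ^ 2) * (N * (p * cp p * Im)) := by ring
    rw [e1, e2]
    exact mul_lt_mul_of_pos_left key hKR

end Pool.Agent.BEJ.H95
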